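import Mathlib

/-!
Base family: coprime pairs, square roots of `-1`.
-/

namespace Pool.Agent.Lib.H13Mod3

open Finset

lemma lift_root {n r : ℕ} (hn : n % 2 = 1) (h : n ∣ r ^ 2 + 1) : ∃ R, n ^ 2 ∣ R ^ 2 + 1 := by
  obtain ⟨s, hs, hs2⟩ : ∃ s, n ∣ s ^ 2 + 1 ∧ s % 2 = 0 := by
    rcases Nat.even_or_odd r with he | ho
    · exact ⟨r, h, Nat.even_iff.mp he⟩
    · refine ⟨r + n, ?_, ?_⟩
      · have : (r + n) ^ 2 + 1 = (r ^ 2 + 1) + n * (2 * r + n) := by ring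
        rw [this]; exact dvd_add h (dvd_mul_right _ _)
      · have := Nat.odd_iff.mp ho; omega
  obtain ⟨u, rfl⟩ : ∃ u, s = 2 * u := ⟨s / 2, by omega⟩
  refine ⟨4 * u ^ 3 + 3 * u, ?_⟩
  have : (4 * u ^ 3 + 3 * u) ^ 2 + 1 = ((2 * u) ^ 2 + 1) ^ 2 * (u ^ 2 + 1) := by ring
  rw [this]
  exact dvd_mul_of_dvd_left (pow_dvd_pow_of_dvd hs 2) _

lemma root4 {p : ℕ} (hp : p.Prime) (hp1 : p % 4 = 1) : ∃ r : ℕ, p ^ 4 ∣ r ^ 2 + 1 := by
  have := Fact.mk hp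
  have h1 : IsSquare (-1 : ZMod p) := ZMod.exists_sq_eq_neg_one_iff.mpr (by omega)
  obtain ⟨c, hc⟩ := h1
  have h2 : p ∣ (c.val) ^ 2 + 1 := by
    rw [← ZMod.natCast_eq_zero_iff]
    push_cast
    rw [ZMod.natCast_zmod_val, sq, ← hc]; ring
  obtain ⟨R, hR⟩ := lift_root (by omega) h2
  obtain ⟨R', hR'⟩ := lift_root (n := p ^ 2) (by rw [Nat.pow_mod]; have : p % 2 = 1 := by omega
                                                 rw [this]) hR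
  exact ⟨R', by rw [← pow_mul] at hR'; exact hR'⟩

lemma exists_m {p x y : ℕ} (hp : p.Prime) (hp1 : p % 4 = 1) (hx : 1 ≤ x) (hy : 1 ≤ y)
    (hcop : Nat.Coprime x y) (hpy : ¬ p ∣ y) :
    ∃ m, m < ((p * x) ^ 2 + y ^ 2) * p ^ 4 ∧ ((p * x) ^ 2 + y ^ 2) * p ^ 4 ∣ m ^ 2 + 1 ∧
      (((p * x) ^ 2 + y ^ 2 : ℕ) : ℤ) ∣ (m : ℤ) * ((p * x : ℕ) : ℤ) - y := by
  obtain ⟨r, hr⟩ := root4 hp hp1
  set X := p * x with hX
  set A := X ^ 2 + y ^ 2 with hA
  have hp0 := hp.pos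
  have hcp : Nat.Coprime p y := (Nat.Prime.coprime_iff_not_dvd hp).mpr hpy
  have hXy : Nat.Coprime X y := Nat.Coprime.mul_left hcp hcop
  have hXA : IsCoprime (X : ℤ) (A : ℤ) := by
    rw [Nat.isCoprime_iff_coprime]
    have : Nat.Coprime X (y ^ 2) := Nat.Coprime.pow_right 2 hXy
    rw [hA, show X ^ 2 + y ^ 2 = y ^ 2 + X * X by ring]
    exact (Nat.coprime_add_mul_left_right X (y ^ 2) X).mpr this
  have hAP : IsCoprime (A : ℤ) ((p ^ 4 : ℕ) : ℤ) := by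
    rw [Nat.isCoprime_iff_coprime]
    apply Nat.Coprime.pow_right
    apply Nat.Coprime.symm
    have h3 : Nat.Coprime p (y ^ 2) := Nat.Coprime.pow_right 2 hcp
    rw [hA, show X ^ 2 + y ^ 2 = y ^ 2 + p * (x * X) by rw [hX]; ring]
    exact (Nat.coprime_add_mul_left_right p (y ^ 2) (x * X)).mpr h3
  obtain ⟨a, b, hab⟩ := hXA
  obtain ⟨u, v, huv⟩ := hAP
  set P : ℕ := p ^ 4 with hP
  have hApos : 0 < A := by positivity
  have hPpos : 0 < P := by positivity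
  -- the integer solution
  set m1 : ℤ := a * y * (v * P) + r * (u * A) with hm1
  have hAPpos : (0 : ℤ) < ((A * P : ℕ) : ℤ) := by exact_mod_cast Nat.mul_pos hApos hPpos
  set m2 : ℤ := m1 % ((A * P : ℕ) : ℤ) with hm2
  have hm2nn : 0 ≤ m2 := Int.emod_nonneg _ hAPpos.ne'
  have hm2lt : m2 < ((A * P : ℕ) : ℤ) := Int.emod_lt_of_pos _ hAPpos
  have hd12 : ((A * P : ℕ) : ℤ) ∣ m1 - m2 := by
    rw [hm2]; exact ⟨m1 / ((A * P : ℕ) : ℤ), by
      have := Int.emod_add_mul_ediv m1 ((A * P : ℕ) : ℤ); linarith⟩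
  have hdA : (A : ℤ) ∣ m1 - m2 := (Dvd.intro (P : ℤ) (by push_cast; ring)).trans hd12
  have hdP : (P : ℤ) ∣ m1 - m2 := (Dvd.intro (A : ℤ) (by push_cast; ring)).trans hd12
  have hA1 : (A : ℤ) ∣ m2 * X - y := by
    obtain ⟨q, hq⟩ := hdA
    refine ⟨-b * y * (v * P) + (r * u) * X - u * y - q * X, ?_⟩
    have e1 : m2 = m1 - A * q := by linarith
    rw [e1, hm1]
    linear_combination ((y : ℤ) * v * P) * hab + (y : ℤ) * huv
  have hAX : IsCoprime (A : ℤ) ((X : ℤ) ^ 2) := IsCoprime.pow_right ⟨b, a, by linarith⟩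
  have hA2 : (A : ℤ) ∣ m2 ^ 2 + 1 := by
    have h4 : (A : ℤ) ∣ (X : ℤ) ^ 2 * (m2 ^ 2 + 1) := by
      obtain ⟨q, hq⟩ := hA1
      refine ⟨q * (m2 * X + y) + 1, ?_⟩
      have hAz : (A : ℤ) = (X : ℤ) ^ 2 + (y : ℤ) ^ 2 := by rw [hA]; push_cast; ring
      linear_combination (m2 * X + y) * hq - hAz
    exact hAX.dvd_of_dvd_mul_left h4
  have hP2 : (P : ℤ) ∣ m2 ^ 2 + 1 := by
    obtain ⟨q, hq⟩ := hdP
    have hr' : (P : ℤ) ∣ (r : ℤ) ^ 2 + 1 := by exact_mod_cast hr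
    have h5 : (P : ℤ) ∣ m2 - r := by
      refine ⟨a * y * v - r * v - q, ?_⟩
      have e1 : m2 = m1 - P * q := by linarith
      rw [e1, hm1]
      linear_combination (r : ℤ) * huv
    have h6 : m2 ^ 2 + 1 = (m2 - r) * (m2 + r) + ((r : ℤ) ^ 2 + 1) := by ring
    rw [h6]
    exact dvd_add (dvd_mul_of_dvd_left h5 _) hr'
  have hAP' : IsCoprime (A : ℤ) (P : ℤ) := ⟨u, v, huv⟩
  refine ⟨m2.toNat, ?_, ?_, ?_⟩
  · have : ((m2.toNat : ℕ) : ℤ) < ((A * P : ℕ) : ℤ) := by rw [Int.toNat_of_nonneg hm2nn]; exact hm2lt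
    exact_mod_cast this
  · have : ((A * P : ℕ) : ℤ) ∣ ((m2.toNat ^ 2 + 1 : ℕ) : ℤ) := by
      push_cast
      rw [Int.toNat_of_nonneg hm2nn]
      exact hAP'.mul_dvd hA2 hP2
    exact_mod_cast this
  · rw [Int.toNat_of_nonneg hm2nn]; exact hA1

lemma pair_inj {x y x' y' m A : ℕ} (hx : 1 ≤ x) (hy : 1 ≤ y) (hx' : 1 ≤ x') (hy' : 1 ≤ y')
    (h : x ^ 2 + y ^ 2 = A) (h' : x' ^ 2 + y' ^ 2 = A)
    (hm : (A : ℤ) ∣ (m : ℤ) * x - y) (hm' : (A : ℤ) ∣ (m : ℤ) * x' - y') :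
    x = x' ∧ y = y' := by
  have h1 : (A : ℤ) ∣ (x : ℤ) * y' - x' * y := by
    obtain ⟨q, hq⟩ := hm
    obtain ⟨q', hq'⟩ := hm'
    refine ⟨x' * q - x * q', ?_⟩
    linear_combination (x' : ℤ) * hq - (x : ℤ) * hq'
  have hb1 : x * y' < A := by nlinarith
  have hb2 : x' * y < A := by nlinarith
  have hz : (x : ℤ) * y' - x' * y = 0 := by
    apply Int.eq_zero_of_abs_lt_dvd h1
    rw [abs_lt]
    have c1 : (x : ℤ) * y' < A := by exact_mod_cast hb1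
    have c2 : (x' : ℤ) * y < A := by exact_mod_cast hb2
    have c3 : (0 : ℤ) ≤ (x : ℤ) * y' := by positivity
    have c4 : (0 : ℤ) ≤ (x' : ℤ) * y := by positivity
    constructor <;> linarith
  have hzn : x * y' = x' * y := by
    have : (x : ℤ) * y' = x' * y := by linarith
    exact_mod_cast this
  have hsq : x ^ 2 * A = x' ^ 2 * A := by
    calc x ^ 2 * A = x ^ 2 * (x' ^ 2 + y' ^ 2) := by rw [h']
      _ = x ^ 2 * x' ^ 2 + (x * y') ^ 2 := by ring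
      _ = x ^ 2 * x' ^ 2 + (x' * y) ^ 2 := by rw [hzn]
      _ = x' ^ 2 * (x ^ 2 + y ^ 2) := by ring
      _ = x' ^ 2 * A := by rw [h]
  have hA0 : 0 < A := by rw [← h]; positivity
  have hxx : x ^ 2 = x' ^ 2 := Nat.eq_of_mul_eq_mul_right hA0 hsq
  have hxe : x = x' := by
    exact (Nat.pow_left_injective (by norm_num : 2 ≠ 0)) hxx
  refine ⟨hxe, ?_⟩
  rw [hxe] at hzn
  exact (Nat.eq_of_mul_eq_mul_left (by omega) hzn).symm

/-- the base set -/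
def SB (p K : ℕ) : Finset (ℕ × ℕ) :=
  (Finset.Ioc 0 K ×ˢ Finset.Ioc 0 K).filter (fun z => Nat.Coprime z.1 z.2 ∧ ¬ p ∣ z.2)

lemma sum_inv_sq (K : ℕ) : ∑ d ∈ Finset.Ioc 1 K, (1 : ℝ) / (d : ℝ) ^ 2 ≤ 0.6637 := by
  have h5 : ∀ K : ℕ, 5 ≤ K → ∑ d ∈ Finset.Ioc 1 K, (1 : ℝ) / (d : ℝ) ^ 2 ≤ 0.6637 - 1 / K := by
    intro K hK
    induction K, hK using Nat.le_induction with
    | base =>
      have : Finset.Ioc 1 5 = {2, 3, 4, 5} := by decide
      rw [this]; norm_num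
    | succ n hn ih =>
      rw [Finset.sum_Ioc_succ_top (by omega : 1 ≤ n)]
      have hn0 : (0 : ℝ) < n := by exact_mod_cast (by omega : 0 < n)
      have h7 : (1 : ℝ) / (((n + 1 : ℕ) : ℝ)) ^ 2 ≤ 1 / n - 1 / ((n + 1 : ℕ) : ℝ) := by
        push_cast
        rw [div_sub_div _ _ hn0.ne' (by positivity), div_le_div_iff₀ (by positivity) (by positivity)]
        nlinarith
      linarith
  by_cases hK : 5 ≤ K
  · have := h5 K hK
    have h8 : (0 : ℝ) ≤ 1 / K := by positivity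
    linarith
  · push Not at hK
    have hsub : Finset.Ioc 1 K ⊆ Finset.Ioc 1 5 := Finset.Ioc_subset_Ioc_right (by omega)
    have := Finset.sum_le_sum_of_subset_of_nonneg (f := fun d : ℕ => (1 : ℝ) / (d : ℝ) ^ 2) hsub
      (fun _ _ _ => by positivity)
    have h9 := h5 5 le_rfl
    have h8 : (0 : ℝ) ≤ 1 / (5 : ℕ) := by positivity
    linarith

lemma SB_card {p K : ℕ} (hp : 5 ≤ p) : (K : ℝ) ^ 2 ≤ 8 * ((SB p K).card : ℝ) := by
  classical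
  set U := Finset.Ioc 0 K ×ˢ Finset.Ioc 0 K with hU
  let D : ℕ → Finset (ℕ × ℕ) := fun d =>
    ((Finset.Ioc 0 K).filter (fun x => d ∣ x)) ×ˢ ((Finset.Ioc 0 K).filter (fun x => d ∣ x))
  let E : Finset (ℕ × ℕ) := (Finset.Ioc 0 K) ×ˢ ((Finset.Ioc 0 K).filter (fun x => p ∣ x))
  have hcov : U ⊆ SB p K ∪ ((Finset.Ioc 1 K).biUnion D ∪ E) := by
    intro z hz
    have hz' := Finset.mem_product.mp hz
    have h1 := Finset.mem_Ioc.mp hz'.1
    have h2 := Finset.mem_Ioc.mp hz'.2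
    by_cases hc : Nat.Coprime z.1 z.2
    · by_cases hpz : p ∣ z.2
      · apply Finset.mem_union_right
        apply Finset.mem_union_right
        exact Finset.mem_product.mpr ⟨hz'.1, Finset.mem_filter.mpr ⟨hz'.2, hpz⟩⟩
      · apply Finset.mem_union_left
        exact Finset.mem_filter.mpr ⟨hz, hc, hpz⟩
    · apply Finset.mem_union_right
      apply Finset.mem_union_left
      refine Finset.mem_biUnion.mpr ⟨Nat.gcd z.1 z.2, ?_, ?_⟩
      · have hg0 : 0 < Nat.gcd z.1 z.2 := Nat.gcd_pos_of_pos_left _ h1.1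
        have hg1 : Nat.gcd z.1 z.2 ≠ 1 := hc
        have hgK : Nat.gcd z.1 z.2 ≤ z.1 := Nat.gcd_le_left _ h1.1
        exact Finset.mem_Ioc.mpr ⟨by omega, by omega⟩
      · exact Finset.mem_product.mpr ⟨Finset.mem_filter.mpr ⟨hz'.1, Nat.gcd_dvd_left _ _⟩,
          Finset.mem_filter.mpr ⟨hz'.2, Nat.gcd_dvd_right _ _⟩⟩
  have hcard := (Finset.card_le_card hcov).trans (Finset.card_union_le _ _)
  have hcard2 := hcard.trans (Nat.add_le_add_left (Finset.card_union_le _ _) _)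
  have hcard3 := hcard2.trans (Nat.add_le_add_left (Nat.add_le_add_right Finset.card_biUnion_le _) _)
  have hUc : U.card = K * K := by rw [hU, Finset.card_product]; simp
  have hDc : ∀ d, (D d).card = (K / d) * (K / d) := by
    intro d
    simp only [D]
    rw [Finset.card_product, Nat.Ioc_filter_dvd_card_eq_div]
  have hEc : E.card = K * (K / p) := by
    simp only [E]
    rw [Finset.card_product, Nat.Ioc_filter_dvd_card_eq_div]; simp
  rw [hUc, hEc] at hcard3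
  simp_rw [hDc] at hcard3
  have h4 : (K : ℝ) * K ≤ (SB p K).card + (∑ d ∈ Finset.Ioc 1 K, ((K / d : ℕ) : ℝ) * ((K / d : ℕ) : ℝ) +
      K * ((K / p : ℕ) : ℝ)) := by exact_mod_cast hcard3
  have h5 : ∑ d ∈ Finset.Ioc 1 K, ((K / d : ℕ) : ℝ) * ((K / d : ℕ) : ℝ) ≤ (K : ℝ) ^ 2 * 0.6637 := by
    calc ∑ d ∈ Finset.Ioc 1 K, ((K / d : ℕ) : ℝ) * ((K / d : ℕ) : ℝ)
        ≤ ∑ d ∈ Finset.Ioc 1 K, (K : ℝ) ^ 2 * (1 / (d : ℝ) ^ 2) := by
          apply Finset.sum_le_sum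
          intro d _
          have h6 : ((K / d : ℕ) : ℝ) ≤ K / d := Nat.cast_div_le
          calc ((K / d : ℕ) : ℝ) * ((K / d : ℕ) : ℝ) ≤ (K / d) * (K / d) := by gcongr
            _ = _ := by ring
      _ = (K : ℝ) ^ 2 * ∑ d ∈ Finset.Ioc 1 K, (1 / (d : ℝ) ^ 2) := by rw [Finset.mul_sum]
      _ ≤ _ := by gcongr; exact sum_inv_sq K
  have h7 : ((K / p : ℕ) : ℝ) ≤ K / 5 := by
    have h8 : ((K / p : ℕ) : ℝ) ≤ K / p := Nat.cast_div_le
    refine h8.trans ?_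
    have : (5 : ℝ) ≤ p := by exact_mod_cast hp
    gcongr
  have h9 : (K : ℝ) * ((K / p : ℕ) : ℝ) ≤ K * (K / 5) := by gcongr
  nlinarith

end Pool.Agent.Lib.H13Mod3
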