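import Mathlib

/-!
Gadget lemma for the mod 3 theorem on `n ^ 2 + 1`
-/

namespace Pool.Agent.Lib.H13Mod3

/-- norm of `V + i W` at level `l` -/
def NN (p A m B l i : ℕ) : ℕ := p ^ l * A + 2 * i * m + i ^ 2 * (p ^ (4 - l) * B)

/-- first candidate -/
def cP (p m B l i : ℕ) : ℕ := m + i * (p ^ (4 - l) * B)

/-- second candidate -/
def cQ (p A m B l i : ℕ) : ℕ :=
  p ^ l * A + (2 * i + 1) * m + i * (i + 1) * (p ^ (4 - l) * B)

lemma lev_eq {p A m B l : ℕ} (hl : l ≤ 4) (h : A * (p ^ 4 * B) = m ^ 2 + 1) :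
    (p ^ l * A) * (p ^ (4 - l) * B) = m ^ 2 + 1 := by
  rw [← h]
  have : p ^ 4 = p ^ l * p ^ (4 - l) := by rw [← pow_add]; congr 1; omega
  rw [this]; ring

lemma P_eq {p A m B l i : ℕ} (hl : l ≤ 4) (h : A * (p ^ 4 * B) = m ^ 2 + 1) :
    NN p A m B l i * (p ^ (4 - l) * B) = (cP p m B l i) ^ 2 + 1 := by
  have h1 := lev_eq hl h
  unfold NN cP
  generalize p ^ l * A = a at *
  generalize p ^ (4 - l) * B = b at *
  calc (a + 2 * i * m + i ^ 2 * b) * b = a * b + 2 * i * m * b + i ^ 2 * b * b := by ring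
    _ = (m ^ 2 + 1) + 2 * i * m * b + i ^ 2 * b * b := by rw [h1]
    _ = _ := by ring

lemma Q_eq {p A m B l i : ℕ} (hl : l ≤ 4) (h : A * (p ^ 4 * B) = m ^ 2 + 1) :
    NN p A m B l i * NN p A m B l (i + 1) = (cQ p A m B l i) ^ 2 + 1 := by
  have h1 := lev_eq hl h
  unfold NN cQ
  generalize p ^ l * A = a at *
  generalize p ^ (4 - l) * B = b at *
  have h2 : (a * b : ℤ) = (m : ℤ) ^ 2 + 1 := by exact_mod_cast h1
  zify
  linear_combination (1 : ℤ) * h2

lemma z3_aux (x s : ZMod 3) (hx : x ≠ 0) (hxs : x + s ≠ 0) (hs : s ≠ 0) : x = s := by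
  revert x s; decide

lemma z3_aux2 (c y z : ZMod 3) (h : y + z ≠ c) : (y + c) + (z + c) ≠ 0 := by
  revert c y z; decide

lemma z3_lev (x d : ZMod 3) (hd : d ≠ 0) : ∃ j : ℕ, j ≤ 2 ∧ x + j * d = 0 := by
  revert x d; decide

lemma z3_lev2 (s d : ZMod 3) (hd : d ≠ 0) (hs : s ≠ 0) : ∃ t : ℕ, t ≤ 2 ∧ (t : ZMod 3) * d = s := by
  revert s d; decide

lemma z3_fin (s : ZMod 3) (h : s = s + s) : s = 0 := by revert s; decide

lemma h_pow {h : ℕ → ZMod 3} (hmul : ∀ a b, a ≠ 0 → b ≠ 0 → h (a * b) = h a + h b)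
    {p : ℕ} (hp0 : p ≠ 0) {a : ℕ} (ha : a ≠ 0) (k : ℕ) :
    h (p ^ k * a) = (k : ZMod 3) * h p + h a := by
  induction k with
  | zero => simp
  | succ k ih =>
    have h1 : p ^ (k + 1) * a = p * (p ^ k * a) := by ring
    rw [h1, hmul _ _ hp0 (by positivity), ih]
    push_cast; ring

theorem gadget {h : ℕ → ZMod 3} (hmul : ∀ a b, a ≠ 0 → b ≠ 0 → h (a * b) = h a + h b)
    {p : ℕ} (hp0 : p ≠ 0) (hp : h p ≠ 0) (c : ZMod 3) {A m B : ℕ}
    (hAB : A * (p ^ 4 * B) = m ^ 2 + 1) :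
    ∃ l ≤ 4, ∃ i ≤ p ^ 2,
      h ((cP p m B l i) ^ 2 + 1) = c ∨ h ((cQ p A m B l i) ^ 2 + 1) = c := by
  by_contra hcon
  push Not at hcon
  have hA0 : A ≠ 0 := by rintro rfl; simp at hAB
  have hB0 : B ≠ 0 := by rintro rfl; simp at hAB
  have hBl : ∀ l, p ^ l * B ≠ 0 := fun l => by positivity
  have hN0 : ∀ l i, NN p A m B l i ≠ 0 := by
    intro l i; unfold NN
    have : 0 < p ^ l * A := by positivity
    omega
  have HP : ∀ l ≤ 4, ∀ i ≤ p ^ 2,
      (h (NN p A m B l i) + c) + (h (p ^ (4 - l) * B) + c) ≠ 0 := by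
    intro l hl i hi
    apply z3_aux2
    rw [← hmul _ _ (hN0 _ _) (hBl _), P_eq hl hAB]
    exact (hcon l hl i hi).1
  have HQ : ∀ l ≤ 4, ∀ i ≤ p ^ 2,
      (h (NN p A m B l i) + c) + (h (NN p A m B l (i + 1)) + c) ≠ 0 := by
    intro l hl i hi
    apply z3_aux2
    rw [← hmul _ _ (hN0 _ _) (hN0 _ _), Q_eq hl hAB]
    exact (hcon l hl i hi).2
  obtain ⟨j, hj, hj0⟩ := z3_lev (h A + c) (h p) hp
  have hN00 : ∀ l, NN p A m B l 0 = p ^ l * A := by intro l; simp [NN]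
  have g0 : h (NN p A m B j 0) + c = 0 := by
    rw [hN00, h_pow hmul hp0 hA0, ← hj0]; ring
  have hp1 : 1 ≤ p ^ 2 := Nat.one_le_pow _ _ (Nat.pos_of_ne_zero hp0)
  set s : ZMod 3 := h (p ^ (4 - j) * B) + c with hs
  have hs0 : s ≠ 0 := by
    have := HP j (by omega) 0 (by omega)
    rw [g0, zero_add] at this; exact this
  have g1 : h (NN p A m B j 1) + c = s := by
    apply z3_aux _ _ _ _ hs0
    · have := HQ j (by omega) 0 (by omega)
      rw [g0, zero_add] at this; exact this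
    · exact HP j (by omega) 1 hp1
  obtain ⟨t, ht, hts⟩ := z3_lev2 s (h p) hp hs0
  have hl4 : j + t ≤ 4 := by omega
  have e0 : h (NN p A m B (j + t) 0) + c = s := by
    rw [hN00, show p ^ (j + t) * A = p ^ t * (p ^ j * A) by rw [pow_add]; ring,
      h_pow hmul hp0 (by positivity), hts, ← hN00, add_assoc, g0, add_zero]
  have hBj : p ^ (4 - j) * B = p ^ t * (p ^ (4 - (j + t)) * B) := by
    rw [← mul_assoc, ← pow_add]; congr 2; omega
  have eB : h (p ^ (4 - (j + t)) * B) + c = 0 := by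
    have h1 : s = s + (h (p ^ (4 - (j + t)) * B) + c) := by
      conv_lhs => rw [hs, hBj, h_pow hmul hp0 (hBl _), hts]
      ring
    have h2 := h1
    rw [left_eq_add] at h2
    exact h2
  have ei : ∀ i ≤ p ^ t, h (NN p A m B (j + t) i) + c = s := by
    have hle : p ^ t ≤ p ^ 2 := Nat.pow_le_pow_right (Nat.pos_of_ne_zero hp0) ht
    intro i
    induction i with
    | zero => intro _; exact e0
    | succ i ih =>
      intro hi
      have ih' := ih (by omega)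
      apply z3_aux _ _ _ _ hs0
      · have := HP (j + t) hl4 (i + 1) (by omega)
        rw [eB, add_zero] at this; exact this
      · have := HQ (j + t) hl4 i (by omega)
        rw [ih', add_comm] at this; exact this
  have hfin : NN p A m B (j + t) (p ^ t) = p ^ t * NN p A m B j 1 := by
    unfold NN
    rw [hBj, pow_add]
    ring
  have e1 := ei (p ^ t) le_rfl
  rw [hfin, h_pow hmul hp0 (hN0 _ _), hts, add_assoc, g1] at e1
  exact hs0 (z3_fin s e1.symm)

end Pool.Agent.Lib.H13Mod3
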