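import Mathlib

/-!
Second moment of the divisor function on `n ^ 2 + 1`.
-/

namespace Pool.Agent.Lib.H13Mod3

open Finset

/-- number of divisors -/
abbrev tau (n : ℕ) : ℕ := n.divisors.card

lemma tau_mul_le (a b : ℕ) : tau (a * b) ≤ tau a * tau b := by
  unfold tau
  rw [Nat.divisors_mul]
  exact Finset.card_mul_le

lemma tau_pos {n : ℕ} (hn : n ≠ 0) : 1 ≤ tau n := by
  unfold tau
  exact Finset.card_pos.mpr ⟨1, by simp [hn]⟩

lemma tau_prime_mul_le {q : ℕ} (hq : q.Prime) (n : ℕ) : tau (q * n) ≤ 2 * tau n := by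
  refine (tau_mul_le q n).trans ?_
  have : tau q = 2 := by unfold tau; rw [hq.divisors, Finset.card_pair hq.one_lt.ne]
  rw [this]

lemma block {z X : ℕ} (hz : 1 ≤ z) (hzX : z ^ 2 ≤ X) (k : ℕ) :
    ∀ N : ℕ, N ≠ 0 → N < (z + 1) ^ (k + 1) → ∀ M : ℕ, (∀ d, d ∣ N → d ≤ X → tau d ≤ M) →
      tau N ≤ 2 ^ k * M ^ (k + 1) := by
  have hzX' : z ≤ X := le_trans (by nlinarith) hzX
  induction k with
  | zero =>
    intro N hN hlt M hM
    have : N ≤ z := by simpa using Nat.lt_succ_iff.mp (by simpa using hlt)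
    simpa using hM N dvd_rfl (this.trans hzX')
  | succ k ih =>
    intro N hN hlt M hM
    have hM1 : 1 ≤ M := (tau_pos one_ne_zero).trans (hM 1 (one_dvd _) (by omega))
    by_cases hNX : N ≤ X
    · calc tau N ≤ M := hM N dvd_rfl hNX
        _ = 1 * M ^ 1 := by ring
        _ ≤ 2 ^ (k + 1) * M ^ (k + 1 + 1) :=
          Nat.mul_le_mul (Nat.one_le_pow _ _ (by norm_num))
            (Nat.pow_le_pow_right hM1 (by omega))
    push Not at hNX
    by_cases hq : ∃ q, q.Prime ∧ q ∣ N ∧ z + 1 ≤ q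
    · obtain ⟨q, hqp, ⟨N', rfl⟩, hqz⟩ := hq
      have hN' : N' ≠ 0 := by rintro rfl; simp at hN
      have h1 : N' < (z + 1) ^ (k + 1) := by
        by_contra hcon
        push Not at hcon
        have : (z + 1) ^ (k + 1 + 1) ≤ q * N' := by
          calc (z + 1) ^ (k + 1 + 1) = (z + 1) * (z + 1) ^ (k + 1) := by ring
            _ ≤ q * N' := Nat.mul_le_mul hqz hcon
        omega
      have h2 := ih N' hN' h1 M (fun d hd hdX => hM d (hd.trans (Dvd.intro_left _ rfl)) hdX)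
      calc tau (q * N') ≤ 2 * tau N' := tau_prime_mul_le hqp _
        _ ≤ 2 * (2 ^ k * M ^ (k + 1)) := by gcongr
        _ = 2 ^ (k + 1) * M ^ (k + 1) := by ring
        _ ≤ 2 ^ (k + 1) * M ^ (k + 1 + 1) :=
          Nat.mul_le_mul le_rfl (Nat.pow_le_pow_right hM1 (by omega))
    · push Not at hq
      -- smallest divisor >= z+1
      have hex : ∃ d, d ∣ N ∧ z + 1 ≤ d := ⟨N, dvd_rfl, by omega⟩
      classical
      have hd := Nat.find_spec hex
      have hmin := fun e (he : e < Nat.find hex) => Nat.find_min hex he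
      set d := Nat.find hex with hddef
      have hd1 : d ≠ 1 := by omega
      obtain ⟨q, hqp, hqd⟩ := Nat.exists_prime_and_dvd hd1
      have hqz : q < z + 1 := hq q hqp (hqd.trans hd.1)
      obtain ⟨e, he⟩ := hqd
      have he0 : e ≠ 0 := by rintro rfl; omega
      have hed : e < d := by
        rw [he]; nlinarith [hqp.two_le, Nat.pos_of_ne_zero he0]
      have hez : e < z + 1 := by
        by_contra hcon
        push Not at hcon
        exact hmin e hed ⟨(Dvd.intro_left q he.symm).trans hd.1, hcon⟩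
      have hdX : d ≤ X := by
        rw [he]; refine le_trans ?_ hzX
        calc q * e ≤ z * z := Nat.mul_le_mul (by omega) (by omega)
          _ = z ^ 2 := by ring
      obtain ⟨N', hN'⟩ := hd.1
      have hN'0 : N' ≠ 0 := by rintro rfl; simp at hN'; exact hN hN'
      have h1 : N' < (z + 1) ^ (k + 1) := by
        by_contra hcon
        push Not at hcon
        have : (z + 1) ^ (k + 1 + 1) ≤ d * N' := by
          calc (z + 1) ^ (k + 1 + 1) = (z + 1) * (z + 1) ^ (k + 1) := by ring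
            _ ≤ d * N' := Nat.mul_le_mul hd.2 hcon
        omega
      have h2 := ih N' hN'0 h1 M (fun c hc hcX => hM c (by rw [hN']; exact hc.mul_left _) hcX)
      have h3 : tau d ≤ M := hM d hd.1 hdX
      calc tau N = tau (d * N') := by rw [← hN']
        _ ≤ tau d * tau N' := tau_mul_le _ _
        _ ≤ M * (2 ^ k * M ^ (k + 1)) := Nat.mul_le_mul h3 h2
        _ = 2 ^ k * M ^ (k + 1 + 1) := by ring
        _ ≤ 2 ^ (k + 1) * M ^ (k + 1 + 1) :=
          Nat.mul_le_mul (Nat.pow_le_pow_right (by norm_num) (by omega)) le_rfl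

/-- pointwise bound for `tau (n^2+1)` -/
lemma tau_sq_le {X n : ℕ} (hX : 1 ≤ X) (hn : n ≤ X) :
    (tau (n ^ 2 + 1)) ^ 2 ≤ 64 * ∑ d ∈ (n ^ 2 + 1).divisors.filter (· ≤ X), (tau d) ^ 8 := by
  classical
  set z := Nat.sqrt X with hz
  have hz1 : 1 ≤ z := by rw [hz]; exact Nat.sqrt_pos.mpr hX
  have hzX : z ^ 2 ≤ X := by rw [hz]; exact Nat.sqrt_le' X
  have hXz : X < (z + 1) ^ 2 := by rw [hz]; exact Nat.lt_succ_sqrt' X
  set D := (n ^ 2 + 1).divisors.filter (· ≤ X) with hD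
  have hne : D.Nonempty := ⟨1, by simp [hD]; omega⟩
  obtain ⟨e, heD, he⟩ := Finset.exists_max_image D tau hne
  have h1 : tau (n ^ 2 + 1) ≤ 2 ^ 3 * (tau e) ^ (3 + 1) := by
    apply block hz1 hzX 3 (n ^ 2 + 1) (by omega)
    · have h2 : n + 1 ≤ (z + 1) ^ 2 := by omega
      have h3 : (n + 1) ^ 2 ≤ ((z + 1) ^ 2) ^ 2 := Nat.pow_le_pow_left h2 2
      rcases Nat.eq_zero_or_pos n with h0 | h0
      · subst h0
        calc 0 ^ 2 + 1 = 1 := by norm_num
          _ < 2 ^ 4 := by norm_num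
          _ ≤ (z + 1) ^ 4 := Nat.pow_le_pow_left (by omega) 4
      · have : n ^ 2 + 1 < (n + 1) ^ 2 := by nlinarith
        calc n ^ 2 + 1 < (n + 1) ^ 2 := this
          _ ≤ ((z + 1) ^ 2) ^ 2 := h3
          _ = (z + 1) ^ (3 + 1) := by ring
    · intro d hd hdX
      exact he d (by simp [hD, hd, hdX])
  calc (tau (n ^ 2 + 1)) ^ 2 ≤ (2 ^ 3 * (tau e) ^ (3 + 1)) ^ 2 := Nat.pow_le_pow_left h1 2
    _ = 64 * (tau e) ^ 8 := by ring
    _ ≤ 64 * ∑ d ∈ D, (tau d) ^ 8 := by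
      gcongr
      exact Finset.single_le_sum (f := fun d => (tau d) ^ 8) (fun _ _ => Nat.zero_le _) heD

/-- count of `n ≤ X` with `d ∣ n^2+1` -/
lemma count_le {d X : ℕ} (hd : 1 ≤ d) :
    ((Finset.Icc 1 X).filter (fun n => d ∣ n ^ 2 + 1)).card ≤ 2 * tau d * (X / d + 1) := by
  classical
  set S := (Finset.Icc 1 X).filter (fun n => d ∣ n ^ 2 + 1) with hS
  rcases S.eq_empty_or_nonempty with h | ⟨n0, hn0⟩
  · rw [h]; simp
  have hn0' : d ∣ n0 ^ 2 + 1 := (Finset.mem_filter.mp hn0).2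
  let f : ℕ → ℕ × (Bool × ℕ) := fun n =>
    (Int.gcd ((n : ℤ) - n0) d, (decide (2 * (n % d) < d), n / d))
  have hmap : ∀ n ∈ S, f n ∈ d.divisors ×ˢ ((Finset.univ : Finset Bool) ×ˢ Finset.range (X / d + 1)) := by
    intro n hn
    have hn1 := Finset.mem_filter.mp hn
    have hn2 := Finset.mem_Icc.mp hn1.1
    simp only [f, Finset.mem_product, Finset.mem_univ, true_and, Nat.mem_divisors,
      Finset.mem_range]
    refine ⟨⟨?_, by omega⟩, ?_⟩
    · have := Int.gcd_dvd_right ((n : ℤ) - n0) (d : ℤ)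
      exact_mod_cast this
    · exact Nat.lt_succ_of_le (Nat.div_le_div_right hn2.2)
  have hinj : Set.InjOn f S := by
    intro n hn n' hn' hff
    have hnd : d ∣ n ^ 2 + 1 := (Finset.mem_filter.mp hn).2
    have hnd' : d ∣ n' ^ 2 + 1 := (Finset.mem_filter.mp hn').2
    simp only [f, Prod.mk.injEq, decide_eq_decide] at hff
    obtain ⟨hg, hb, hq⟩ := hff
    -- let e be the common gcd
    set e := Int.gcd ((n : ℤ) - n0) d with he
    have hed : (e : ℤ) ∣ d := Int.gcd_dvd_right _ _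
    have he1 : (e : ℤ) ∣ (n : ℤ) - n0 := Int.gcd_dvd_left _ _
    have he2 : (e : ℤ) ∣ (n' : ℤ) - n0 := by rw [hg]; exact Int.gcd_dvd_left _ _
    obtain ⟨c, hc⟩ := hed
    have hd0 : (d : ℤ) ≠ 0 := by exact_mod_cast (by omega : d ≠ 0)
    have he0 : (e : ℤ) ≠ 0 := by rintro h0; rw [h0] at hc; simp at hc; omega
    -- c divides n + n0
    have key : ∀ k : ℕ, d ∣ k ^ 2 + 1 → Int.gcd ((k : ℤ) - n0) d = e → c ∣ (k : ℤ) + n0 := by
      intro k hk hke
      have h1 : (d : ℤ) ∣ ((k : ℤ) - n0) * (k + n0) := by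
        have ha : (d : ℤ) ∣ (k : ℤ) ^ 2 + 1 := by exact_mod_cast hk
        have hb : (d : ℤ) ∣ (n0 : ℤ) ^ 2 + 1 := by exact_mod_cast hn0'
        have := dvd_sub ha hb
        have h2 : ((k : ℤ) - n0) * (k + n0) = (k : ℤ) ^ 2 + 1 - ((n0 : ℤ) ^ 2 + 1) := by ring
        rw [h2]; exact this
      have hek : (e : ℤ) ∣ (k : ℤ) - n0 := by rw [← hke]; exact Int.gcd_dvd_left _ _
      obtain ⟨u, hu⟩ := hek
      have hcop : IsCoprime u c := by
        have h3 : Int.gcd ((k : ℤ) - n0) d = e := hke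
        rw [hu, hc, Int.gcd_mul_left] at h3
        have h4 : Int.gcd u c = 1 := by
          have h5 : (e : ℤ).natAbs = e := Int.natAbs_natCast e
          rw [h5] at h3
          have h6 : 0 < e := Nat.pos_of_ne_zero (by exact_mod_cast he0)
          exact Nat.eq_of_mul_eq_mul_left h6 (by rw [h3, mul_one])
        exact Int.isCoprime_iff_gcd_eq_one.mpr h4
      rw [hu, hc] at h1
      have h7 : (e : ℤ) * c ∣ e * (u * (k + n0)) := by rwa [mul_assoc] at h1
      have h8 : c ∣ u * ((k : ℤ) + n0) := (mul_dvd_mul_iff_left he0).mp h7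
      exact hcop.symm.dvd_of_dvd_mul_left h8
    have k1 := key n hnd he.symm
    have k2 := key n' hnd' hg.symm
    have hce : c ∣ (n : ℤ) - n' := by
      have := dvd_sub k1 k2
      have h9 : (n : ℤ) + n0 - (n' + n0) = n - n' := by ring
      rwa [h9] at this
    have hee : (e : ℤ) ∣ (n : ℤ) - n' := by
      have := dvd_sub he1 he2
      have h9 : (n : ℤ) - n0 - (n' - n0) = n - n' := by ring
      rwa [h9] at this
    -- d | 2 (n - n')
    have hd2 : (d : ℤ) ∣ 2 * ((n : ℤ) - n') := by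
      -- gcd (e, c) | 2
      obtain ⟨g, hgdef⟩ : ∃ g : ℕ, g = Int.gcd (e : ℤ) c := ⟨_, rfl⟩
      have hge : (g : ℤ) ∣ e := by rw [hgdef]; exact Int.gcd_dvd_left _ _
      have hgc : (g : ℤ) ∣ c := by rw [hgdef]; exact Int.gcd_dvd_right _ _
      have hg2n : (g : ℤ) ∣ 2 * n0 := by
        have h10 := dvd_sub (hgc.trans k1) (hge.trans he1)
        have h11 : (n : ℤ) + n0 - (n - n0) = 2 * n0 := by ring
        rwa [h11] at h10
      have hgn : IsCoprime (g : ℤ) n0 := by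
        have hgd : (g : ℤ) ∣ (n0 : ℤ) ^ 2 + 1 := by
          have hb : (d : ℤ) ∣ (n0 : ℤ) ^ 2 + 1 := by exact_mod_cast hn0'
          exact (hge.trans (Dvd.intro _ hc.symm)).trans hb
        obtain ⟨r, hr⟩ := hgd
        exact ⟨r, -(n0 : ℤ), by linear_combination -hr⟩
      have hg2 : (g : ℤ) ∣ 2 := hgn.dvd_of_dvd_mul_right hg2n
      -- e * c | g * (n - n')... via Bezout
      have hbez : (g : ℤ) = e * Int.gcdA e c + c * Int.gcdB e c := by
        rw [hgdef]; exact Int.gcd_eq_gcd_ab _ _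
      obtain ⟨r, hr⟩ := hg2
      obtain ⟨a1, ha1⟩ := hce
      obtain ⟨a2, ha2⟩ := hee
      refine ⟨r * (Int.gcdA e c * a1 + Int.gcdB e c * a2), ?_⟩
      rw [hc]
      calc 2 * ((n : ℤ) - n') = (g * r) * ((n : ℤ) - n') := by rw [← hr]
        _ = (e * Int.gcdA e c + c * Int.gcdB e c) * r * ((n : ℤ) - n') := by
            rw [← hbez]
        _ = e * Int.gcdA e c * r * ((n : ℤ) - n') + c * Int.gcdB e c * r * ((n : ℤ) - n') := by ring
        _ = e * Int.gcdA e c * r * (c * a1) + c * Int.gcdB e c * r * (e * a2) := by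
            rw [← ha2, ← ha1]
        _ = _ := by ring
    -- reduce mod d
    have hn_eq := Nat.div_add_mod n d
    have hn'_eq := Nat.div_add_mod n' d
    have hr1 := Nat.mod_lt n hd
    have hr2 := Nat.mod_lt n' hd
    have hd3 : (d : ℤ) ∣ 2 * (((n % d : ℕ) : ℤ) - ((n' % d : ℕ) : ℤ)) := by
      have h12 : (n : ℤ) - n' = ((n % d : ℕ) : ℤ) - ((n' % d : ℕ) : ℤ) := by
        have e1 : (n : ℤ) = d * (n / d : ℕ) + (n % d : ℕ) := by exact_mod_cast hn_eq.symm
        have e2 : (n' : ℤ) = d * (n' / d : ℕ) + (n' % d : ℕ) := by exact_mod_cast hn'_eq.symm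
        rw [e1, e2, hq]; push_cast; ring
      rw [← h12]; exact hd2
    have hzero : 2 * (((n % d : ℕ) : ℤ) - ((n' % d : ℕ) : ℤ)) = 0 := by
      apply Int.eq_zero_of_abs_lt_dvd hd3
      rw [abs_lt]
      by_cases hlt : 2 * (n % d) < d
      · have hlt' : 2 * (n' % d) < d := hb.mp hlt
        constructor <;> omega
      · have hlt' : ¬ 2 * (n' % d) < d := fun hh => hlt (hb.mpr hh)
        constructor <;> omega
    have hmod : n % d = n' % d := by omega
    rw [← hn_eq, ← hn'_eq, hq, hmod]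
  have := Finset.card_le_card_of_injOn f hmap hinj
  refine this.trans ?_
  rw [Finset.card_product, Finset.card_product, Finset.card_range, Finset.card_univ,
    Fintype.card_bool]
  unfold tau
  apply le_of_eq; ring

/-- harmonic sums of powers of `tau` -/
noncomputable def SS (k X : ℕ) : ℝ := ∑ d ∈ Finset.Icc 1 X, ((tau d : ℝ) ^ k / d)

lemma SS_succ (k X : ℕ) : SS (k + 1) X ≤ (SS k X) ^ 2 := by
  classical
  unfold SS
  rw [sq, Finset.sum_mul_sum]
  -- rewrite the left side as a sum over pairs (a, b) with a * b = d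
  have h1 : ∀ d ∈ Finset.Icc 1 X, ((tau d : ℝ) ^ (k + 1) / d) ≤
      ∑ x ∈ d.divisorsAntidiagonal, ((tau x.1 : ℝ) ^ k / x.1) * ((tau x.2 : ℝ) ^ k / x.2) := by
    intro d hd
    have hd1 := (Finset.mem_Icc.mp hd).1
    have hcard : (tau d : ℝ) = ∑ x ∈ d.divisorsAntidiagonal, (1 : ℝ) := by
      rw [Finset.sum_const, nsmul_eq_mul, mul_one]
      unfold tau
      rw [← Nat.map_div_right_divisors, Finset.card_map]
    rw [pow_succ, mul_div_assoc, hcard, Finset.sum_div, Finset.mul_sum]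
    apply Finset.sum_le_sum
    intro x hx
    have hx' := Nat.mem_divisorsAntidiagonal.mp hx
    have hxd : (d : ℝ) = x.1 * x.2 := by rw [← hx'.1]; push_cast; ring
    have hx1 : x.1 ≠ 0 := by rintro h0; rw [h0] at hx'; omega
    have hx2 : x.2 ≠ 0 := by rintro h0; rw [h0] at hx'; omega
    have hx1' : (0 : ℝ) < x.1 := by exact_mod_cast Nat.pos_of_ne_zero hx1
    have hx2' : (0 : ℝ) < x.2 := by exact_mod_cast Nat.pos_of_ne_zero hx2
    have htau : (tau d : ℝ) ≤ (tau x.1 : ℝ) * tau x.2 := by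
      have := tau_mul_le x.1 x.2
      rw [hx'.1] at this
      exact_mod_cast this
    rw [← hcard]
    calc (tau d : ℝ) ^ k * (1 / d) ≤ ((tau x.1 : ℝ) * tau x.2) ^ k * (1 / d) := by
          gcongr
      _ = _ := by rw [hxd, mul_pow]; field_simp
  refine (Finset.sum_le_sum h1).trans ?_
  rw [← Finset.sum_product']
  rw [Finset.sum_sigma']
  have hnn : ∀ x : ℕ × ℕ, 0 ≤ ((tau x.1 : ℝ) ^ k / x.1) * ((tau x.2 : ℝ) ^ k / x.2) := by
    intro x; positivity
  have hinj : Set.InjOn (fun y : (Σ _ : ℕ, ℕ × ℕ) => y.2)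
      ((Finset.Icc 1 X).sigma fun d => d.divisorsAntidiagonal : Finset (Σ _ : ℕ, ℕ × ℕ)) := by
    rintro ⟨d, x⟩ hx ⟨d', x'⟩ hx' hxx
    simp only [Finset.coe_sigma, Set.mem_sigma_iff, Finset.mem_coe, Nat.mem_divisorsAntidiagonal] at hx hx'
    simp only at hxx
    subst hxx
    have : d = d' := by rw [← hx.2.1, ← hx'.2.1]
    subst this; rfl
  rw [← Finset.sum_image (g := fun y : (Σ _ : ℕ, ℕ × ℕ) => y.2)
    (f := fun x : ℕ × ℕ => ((tau x.1 : ℝ) ^ k / x.1) * ((tau x.2 : ℝ) ^ k / x.2)) hinj]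
  apply Finset.sum_le_sum_of_subset_of_nonneg
  · intro x hx
    obtain ⟨⟨d, y⟩, hy, rfl⟩ := Finset.mem_image.mp hx
    simp only [Finset.mem_sigma, Finset.mem_Icc, Nat.mem_divisorsAntidiagonal] at hy
    obtain ⟨⟨hd1, hdX⟩, hyd, hd0⟩ := hy
    have hx1 : y.1 ≠ 0 := by rintro h0; rw [h0] at hyd; omega
    have hx2 : y.2 ≠ 0 := by rintro h0; rw [h0] at hyd; omega
    simp only [Finset.mem_product, Finset.mem_Icc]
    refine ⟨⟨by omega, ?_⟩, ⟨by omega, ?_⟩⟩
    · exact (Nat.le_of_dvd (by omega) (Dvd.intro _ hyd)).trans hdX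
    · exact (Nat.le_of_dvd (by omega) (Dvd.intro_left _ hyd)).trans hdX
  · intro x _ _; exact hnn x

lemma SS_zero (X : ℕ) : SS 0 X ≤ 1 + Real.log X := by
  unfold SS
  have := harmonic_le_one_add_log X
  rw [harmonic_eq_sum_Icc] at this
  push_cast at this
  simpa [one_div] using this

lemma SS_nonneg (k X : ℕ) : 0 ≤ SS k X := by
  unfold SS; positivity

lemma SS_le (k X : ℕ) : SS k X ≤ (1 + Real.log X) ^ (2 ^ k) := by
  induction k with
  | zero => simpa using SS_zero X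
  | succ k ih =>
    refine (SS_succ k X).trans ?_
    calc (SS k X) ^ 2 ≤ ((1 + Real.log X) ^ (2 ^ k)) ^ 2 :=
          pow_le_pow_left₀ (SS_nonneg _ _) ih 2
      _ = _ := by rw [← pow_mul, pow_succ]

/-- second moment -/
theorem sum_tau_sq_le {X : ℕ} (hX : 1 ≤ X) :
    (∑ n ∈ Finset.Icc 1 X, (tau (n ^ 2 + 1) : ℝ) ^ 2) ≤
      256 * X * (1 + Real.log X) ^ 512 := by
  classical
  have h1 : (∑ n ∈ Finset.Icc 1 X, (tau (n ^ 2 + 1)) ^ 2) ≤
      64 * ∑ d ∈ Finset.Icc 1 X, (tau d) ^ 8 * (2 * tau d * (X / d + 1)) := by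
    calc (∑ n ∈ Finset.Icc 1 X, (tau (n ^ 2 + 1)) ^ 2)
        ≤ ∑ n ∈ Finset.Icc 1 X, 64 * ∑ d ∈ (n ^ 2 + 1).divisors.filter (· ≤ X), (tau d) ^ 8 :=
          Finset.sum_le_sum fun n hn => tau_sq_le hX (Finset.mem_Icc.mp hn).2
      _ = 64 * ∑ n ∈ Finset.Icc 1 X, ∑ d ∈ (n ^ 2 + 1).divisors.filter (· ≤ X), (tau d) ^ 8 := by
          rw [Finset.mul_sum]
      _ = 64 * ∑ n ∈ Finset.Icc 1 X, ∑ d ∈ Finset.Icc 1 X,
            if d ∣ n ^ 2 + 1 then (tau d) ^ 8 else 0 := by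
          congr 1
          apply Finset.sum_congr rfl
          intro n _
          rw [← Finset.sum_filter]
          apply Finset.sum_congr _ (fun _ _ => rfl)
          ext d
          simp only [Finset.mem_filter, Nat.mem_divisors, Finset.mem_Icc]
          constructor
          · rintro ⟨⟨ha, _⟩, hb⟩
            exact ⟨⟨Nat.pos_of_dvd_of_pos ha (by omega), hb⟩, ha⟩
          · rintro ⟨⟨_, hb⟩, ha⟩
            exact ⟨⟨ha, by omega⟩, hb⟩
      _ = 64 * ∑ d ∈ Finset.Icc 1 X,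
            (tau d) ^ 8 * ((Finset.Icc 1 X).filter (fun n => d ∣ n ^ 2 + 1)).card := by
          congr 1
          rw [Finset.sum_comm]
          apply Finset.sum_congr rfl
          intro d _
          rw [← Finset.sum_filter, Finset.sum_const, smul_eq_mul, mul_comm]
      _ ≤ _ := by
          gcongr with d hd
          exact count_le (Finset.mem_Icc.mp hd).1
  have h2 : (∑ n ∈ Finset.Icc 1 X, (tau (n ^ 2 + 1) : ℝ) ^ 2) ≤
      64 * ∑ d ∈ Finset.Icc 1 X, (tau d : ℝ) ^ 8 * (2 * tau d * ((X / d : ℕ) + 1)) := by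
    exact_mod_cast h1
  refine h2.trans ?_
  have h3 : ∀ d ∈ Finset.Icc 1 X, (tau d : ℝ) ^ 8 * (2 * tau d * ((X / d : ℕ) + 1)) ≤
      4 * X * ((tau d : ℝ) ^ 9 / d) := by
    intro d hd
    have hd' := Finset.mem_Icc.mp hd
    have hdpos : (0 : ℝ) < d := by exact_mod_cast hd'.1
    have h4 : ((X / d : ℕ) : ℝ) ≤ X / d := Nat.cast_div_le
    have h5 : (1 : ℝ) ≤ X / d := by
      rw [le_div_iff₀ hdpos]; rw [one_mul]; exact_mod_cast hd'.2
    calc (tau d : ℝ) ^ 8 * (2 * tau d * ((X / d : ℕ) + 1))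
        ≤ (tau d : ℝ) ^ 8 * (2 * tau d * (X / d + X / d)) := by gcongr
      _ = _ := by field_simp; ring
  calc 64 * ∑ d ∈ Finset.Icc 1 X, (tau d : ℝ) ^ 8 * (2 * tau d * ((X / d : ℕ) + 1))
      ≤ 64 * ∑ d ∈ Finset.Icc 1 X, 4 * X * ((tau d : ℝ) ^ 9 / d) :=
        mul_le_mul_of_nonneg_left (Finset.sum_le_sum h3) (by norm_num)
    _ = 256 * X * SS 9 X := by
        rw [← Finset.mul_sum]; unfold SS; ring
    _ ≤ 256 * X * (1 + Real.log X) ^ 512 := by
        gcongr
        exact (SS_le 9 X).trans (le_of_eq (by norm_num))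

end Pool.Agent.Lib.H13Mod3
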