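import Mathlib
import Pool.Agent.Lib.H13Mod3.Gadget
import Pool.Agent.Lib.H13Mod3.TauSq
import Pool.Agent.Lib.H13Mod3.Base

/-!
Counting argument.
-/

namespace Pool.Agent.Lib.H13Mod3

open Finset

/-- the relation between a base pair and its witness -/
def Rel (p : ℕ) (z : ℕ × ℕ) (w : (ℕ × ℕ × Bool) × (Σ _ : ℕ, ℕ)) : Prop :=
  ∃ m B A : ℕ, A = (p * z.1) ^ 2 + z.2 ^ 2 ∧ A * (p ^ 4 * B) = m ^ 2 + 1 ∧
    (A : ℤ) ∣ (m : ℤ) * ((p * z.1 : ℕ) : ℤ) - (z.2 : ℤ) ∧ w.1.1 ≤ 4 ∧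
    ((w.1.2.2 = false ∧ w.2.1 = cP p m B w.1.1 w.1.2.1 ∧ w.2.2 = p ^ (4 - w.1.1) * B) ∨
     (w.1.2.2 = true ∧ w.2.1 = cQ p A m B w.1.1 w.1.2.1 ∧ w.2.2 = NN p A m B w.1.1 w.1.2.1))

lemma Rel_inj {p : ℕ} (hp : 0 < p) {z z' : ℕ × ℕ} {w : (ℕ × ℕ × Bool) × (Σ _ : ℕ, ℕ)}
    (hz1 : 1 ≤ z.1) (hz2 : 1 ≤ z.2) (hz1' : 1 ≤ z'.1) (hz2' : 1 ≤ z'.2)
    (h : Rel p z w) (h' : Rel p z' w) : z = z' := by
  obtain ⟨m, B, A, hA, hAB, hd, hl, hw⟩ := h
  obtain ⟨m', B', A', hA', hAB', hd', _, hw'⟩ := h'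
  obtain ⟨⟨l, i, b⟩, ⟨n, d⟩⟩ := w
  simp only at hw hw' hl
  have hBpos : 0 < B := by
    rcases Nat.eq_zero_or_pos B with h0 | h0
    · rw [h0] at hAB; simp at hAB
    · exact h0
  have key : m = m' ∧ A = A' := by
    rcases hw with ⟨hb, hn, hdd⟩ | ⟨hb, hn, hdd⟩ <;> rcases hw' with ⟨hb', hn', hdd'⟩ | ⟨hb', hn', hdd'⟩
    · have h1 : p ^ (4 - l) * B = p ^ (4 - l) * B' := by rw [← hdd, ← hdd']
      have h2 : B = B' := Nat.eq_of_mul_eq_mul_left (by positivity) h1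
      subst h2
      have h3 : m = m' := by
        have : cP p m B l i = cP p m' B l i := by rw [← hn, ← hn']
        unfold cP at this
        omega
      subst h3
      refine ⟨rfl, ?_⟩
      have h4 : A * (p ^ 4 * B) = A' * (p ^ 4 * B) := by rw [hAB, hAB']
      exact Nat.eq_of_mul_eq_mul_right (by positivity) h4
    · rw [hb] at hb'; simp at hb'
    · rw [hb] at hb'; simp at hb'
    · have q1 := Q_eq (i := i) hl hAB
      have q1' := Q_eq (i := i) hl hAB'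
      rw [← hdd, ← hn] at q1
      rw [← hdd', ← hn'] at q1'
      have hd0 : 0 < d := by
        rcases Nat.eq_zero_or_pos d with h0 | h0
        · rw [h0] at q1; simp at q1
        · exact h0
      have h2 : NN p A m B l (i + 1) = NN p A' m' B' l (i + 1) :=
        Nat.eq_of_mul_eq_mul_left hd0 (by rw [q1, q1'])
      have h1 : NN p A m B l i = NN p A' m' B' l i := by rw [← hdd, ← hdd']
      have h3 : cQ p A m B l i = cQ p A' m' B' l i := by rw [← hn, ← hn']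
      unfold NN at h1 h2
      unfold cQ at h3
      generalize p ^ (4 - l) * B = β at h1 h2 h3
      generalize p ^ (4 - l) * B' = β' at h1 h2 h3
      have ha : p ^ l * A = p ^ l * A' → A = A' := fun hh =>
        Nat.eq_of_mul_eq_mul_left (by positivity) hh
      generalize p ^ l * A = α at h1 h2 h3 ha
      generalize p ^ l * A' = α' at h1 h2 h3 ha
      zify at h1 h2 h3
      have e1 : (m : ℤ) + i * β = m' + i * β' := by linarith
      have e2 : (m : ℤ) + (i + 1) * β = m' + (i + 1) * β' := by linarith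
      have e3 : (β : ℤ) = β' := by linarith
      have e4 : (m : ℤ) = m' := by rw [e3] at e1; linarith
      have e5 : (α : ℤ) = α' := by rw [e3, e4] at h1; linarith
      exact ⟨by exact_mod_cast e4, ha (by exact_mod_cast e5)⟩
  obtain ⟨rfl, rfl⟩ := key
  have hpair := pair_inj (x := p * z.1) (y := z.2) (x' := p * z'.1) (y' := z'.2) (m := m) (A := A)
    (Nat.mul_pos hp hz1) hz2 (Nat.mul_pos hp hz1') hz2' hA.symm hA'.symm hd hd'
  have h5 : z.1 = z'.1 := Nat.eq_of_mul_eq_mul_left hp hpair.1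
  exact Prod.ext h5 hpair.2

lemma count_main {h : ℕ → ZMod 3} (hmul : ∀ a b, a ≠ 0 → b ≠ 0 → h (a * b) = h a + h b)
    {p : ℕ} (hp : p.Prime) (hp1 : p % 4 = 1) (hhp : h p ≠ 0) (c : ZMod 3) (K : ℕ) :
    (SB p K).card ≤ 10 * (p ^ 2 + 1) *
      ∑ n ∈ (Finset.Icc 1 (12 * p ^ 14 * K ^ 2)).filter (fun n => h (n ^ 2 + 1) = c),
        tau (n ^ 2 + 1) := by
  classical
  set X := 12 * p ^ 14 * K ^ 2 with hX
  set T := (Finset.Icc 1 X).filter (fun n => h (n ^ 2 + 1) = c) with hT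
  set I : Finset (ℕ × ℕ × Bool) := (Finset.range 5) ×ˢ ((Finset.range (p ^ 2 + 1)) ×ˢ Finset.univ) with hI
  set P : Finset (Σ _ : ℕ, ℕ) := T.sigma (fun n => (n ^ 2 + 1).divisors) with hP
  have hpp := hp.pos
  have hp1' : 1 ≤ p := hpp
  have hex : ∀ z ∈ SB p K, ∃ w, w ∈ I ×ˢ P ∧ Rel p z w := by
    intro z hz
    obtain ⟨hz1, hz2⟩ := Finset.mem_filter.mp hz
    have hz3 := Finset.mem_product.mp hz1
    have hx := Finset.mem_Ioc.mp hz3.1
    have hy := Finset.mem_Ioc.mp hz3.2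
    obtain ⟨m, hm1, hm2, hm3⟩ := exists_m hp hp1 hx.1 hy.1 hz2.1 hz2.2
    set A := (p * z.1) ^ 2 + z.2 ^ 2 with hA
    obtain ⟨B, hB⟩ := hm2
    have hAB : A * (p ^ 4 * B) = m ^ 2 + 1 := by rw [hB]; ring
    have hApos : 0 < A := by
      rw [hA]; have := hy.1; positivity
    have hBpos : 0 < B := by
      rcases Nat.eq_zero_or_pos B with h0 | h0
      · rw [h0] at hAB; simp at hAB
      · exact h0
    have hmpos : 0 < m := by
      rcases Nat.eq_zero_or_pos m with h0 | h0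
      · exfalso
        rw [h0] at hAB
        have h5 : p ^ 4 ∣ 1 := by
          have : A * (p ^ 4 * B) = 1 := by simpa using hAB
          exact ⟨A * B, by rw [← this]; ring⟩
        have h6 : p ∣ 1 := (dvd_pow_self p (by norm_num)).trans h5
        exact hp.one_lt.ne' (Nat.dvd_one.mp h6)
      · exact h0
    -- bounds
    have hA2 : A ≤ 2 * p ^ 2 * K ^ 2 := by
      calc A = p ^ 2 * z.1 ^ 2 + z.2 ^ 2 := by rw [hA]; ring
        _ ≤ p ^ 2 * K ^ 2 + K ^ 2 := by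
          gcongr
          · exact hx.2
          · exact hy.2
        _ ≤ p ^ 2 * K ^ 2 + p ^ 2 * K ^ 2 := by
          gcongr
          calc K ^ 2 = 1 * K ^ 2 := by ring
            _ ≤ p ^ 2 * K ^ 2 := by gcongr; exact Nat.one_le_pow _ _ hpp
        _ = _ := by ring
    have hmb : m ≤ p ^ 8 * A := by
      calc m ≤ A * p ^ 4 := hm1.le
        _ ≤ A * p ^ 8 := Nat.mul_le_mul_left _ (Nat.pow_le_pow_right hpp (by norm_num))
        _ = _ := by ring
    have hBb : p ^ 4 * B ≤ p ^ 8 * A := by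
      have h1 : m ^ 2 + 1 ≤ (A * p ^ 4) ^ 2 := by
        have : m + 1 ≤ A * p ^ 4 := hm1
        calc m ^ 2 + 1 ≤ (m + 1) ^ 2 := by nlinarith
          _ ≤ _ := Nat.pow_le_pow_left this 2
      have h2 : A * (p ^ 4 * B) ≤ A * (p ^ 8 * A) := by
        rw [hAB]; refine h1.trans (le_of_eq ?_); ring
      exact Nat.le_of_mul_le_mul_left h2 hApos
    have hBl : ∀ l, p ^ (4 - l) * B ≤ p ^ 8 * A := fun l =>
      le_trans (Nat.mul_le_mul_right _ (Nat.pow_le_pow_right hpp (by omega))) hBb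
    have hAl : ∀ l ≤ 4, p ^ l * A ≤ p ^ 8 * A := fun l hl =>
      Nat.mul_le_mul_right _ (Nat.pow_le_pow_right hpp (by omega))
    obtain ⟨l, hl, i, hi, hcase⟩ := gadget hmul hp.ne_zero hhp c hAB
    have hi' : i ≤ p ^ 2 := hi
    have hII : ∀ b : Bool, ((l, i, b) : ℕ × ℕ × Bool) ∈ I := by
      intro b
      simp only [hI, Finset.mem_product, Finset.mem_range, Finset.mem_univ, and_true]
      omega
    have hbig : 6 * p ^ 4 * (p ^ 8 * A) ≤ X := by
      calc 6 * p ^ 4 * (p ^ 8 * A) ≤ 6 * p ^ 4 * (p ^ 8 * (2 * p ^ 2 * K ^ 2)) := by gcongr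
        _ = X := by rw [hX]; ring
    have hp4 : p ^ 2 ≤ p ^ 4 := Nat.pow_le_pow_right hpp (by norm_num)
    have h1p4 : 1 ≤ p ^ 4 := Nat.one_le_pow _ _ hpp
    rcases hcase with hc | hc
    · have hn1 : 1 ≤ cP p m B l i := by unfold cP; omega
      have hnX : cP p m B l i ≤ X := by
        refine le_trans ?_ hbig
        unfold cP
        calc m + i * (p ^ (4 - l) * B) ≤ p ^ 8 * A + p ^ 2 * (p ^ 8 * A) :=
              Nat.add_le_add hmb (Nat.mul_le_mul hi' (hBl l))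
          _ ≤ p ^ 4 * (p ^ 8 * A) + p ^ 4 * (p ^ 8 * A) :=
              Nat.add_le_add (Nat.le_mul_of_pos_left _ h1p4) (Nat.mul_le_mul_right _ hp4)
          _ ≤ _ := by nlinarith [Nat.zero_le (p ^ 4 * (p ^ 8 * A))]
      refine ⟨((l, i, false), ⟨cP p m B l i, p ^ (4 - l) * B⟩), ?_, ?_⟩
      · refine Finset.mem_product.mpr ⟨hII _, ?_⟩
        simp only [hP, Finset.mem_sigma, hT, Finset.mem_filter, Finset.mem_Icc, Nat.mem_divisors]
        exact ⟨⟨⟨hn1, hnX⟩, hc⟩, Dvd.intro_left _ (P_eq hl hAB), by omega⟩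
      · exact ⟨m, B, A, hA, hAB, hm3, hl, Or.inl ⟨rfl, rfl, rfl⟩⟩
    · have hn1 : 1 ≤ cQ p A m B l i := by
        unfold cQ
        have : m ≤ (2 * i + 1) * m := Nat.le_mul_of_pos_left _ (by omega)
        omega
      have hnX : cQ p A m B l i ≤ X := by
        refine le_trans ?_ hbig
        unfold cQ
        have e1 : 2 * i + 1 ≤ 3 * p ^ 4 := by
          have : i ≤ p ^ 4 := hi'.trans hp4
          omega
        have e2 : i * (i + 1) ≤ 2 * p ^ 4 := by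
          calc i * (i + 1) ≤ p ^ 2 * (p ^ 2 + 1) := by gcongr
            _ ≤ p ^ 2 * (p ^ 2 + p ^ 2) := by gcongr; exact Nat.one_le_pow _ _ hpp
            _ = 2 * p ^ 4 := by ring
        calc p ^ l * A + (2 * i + 1) * m + i * (i + 1) * (p ^ (4 - l) * B)
            ≤ p ^ 8 * A + (3 * p ^ 4) * (p ^ 8 * A) + (2 * p ^ 4) * (p ^ 8 * A) :=
              Nat.add_le_add (Nat.add_le_add (hAl l hl) (Nat.mul_le_mul e1 hmb))
                (Nat.mul_le_mul e2 (hBl l))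
          _ ≤ p ^ 4 * (p ^ 8 * A) + (3 * p ^ 4) * (p ^ 8 * A) + (2 * p ^ 4) * (p ^ 8 * A) :=
              Nat.add_le_add_right (Nat.add_le_add_right (Nat.le_mul_of_pos_left _ h1p4) _) _
          _ = 6 * p ^ 4 * (p ^ 8 * A) := by ring
      refine ⟨((l, i, true), ⟨cQ p A m B l i, NN p A m B l i⟩), ?_, ?_⟩
      · refine Finset.mem_product.mpr ⟨hII _, ?_⟩
        simp only [hP, Finset.mem_sigma, hT, Finset.mem_filter, Finset.mem_Icc, Nat.mem_divisors]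
        exact ⟨⟨⟨hn1, hnX⟩, hc⟩, Dvd.intro _ (Q_eq hl hAB), by omega⟩
      · exact ⟨m, B, A, hA, hAB, hm3, hl, Or.inr ⟨rfl, rfl, rfl⟩⟩
  choose! f hf using hex
  have hinj : Set.InjOn f (SB p K) := by
    intro z hz z' hz' hff
    have hz1 := Finset.mem_product.mp (Finset.mem_filter.mp hz).1
    have hz2 := Finset.mem_product.mp (Finset.mem_filter.mp hz').1
    have a1 := (Finset.mem_Ioc.mp hz1.1).1
    have a2 := (Finset.mem_Ioc.mp hz1.2).1
    have a3 := (Finset.mem_Ioc.mp hz2.1).1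
    have a4 := (Finset.mem_Ioc.mp hz2.2).1
    have r2 := (hf z' hz').2
    rw [← hff] at r2
    exact Rel_inj hpp a1 a2 a3 a4 (hf z hz).2 r2
  have hle := Finset.card_le_card_of_injOn f (fun z hz => (hf z hz).1) hinj
  refine hle.trans ?_
  rw [Finset.card_product, hI, Finset.card_product, Finset.card_product, Finset.card_range,
    Finset.card_range, Finset.card_univ, Fintype.card_bool, hP, Finset.card_sigma]
  apply le_of_eq
  unfold tau
  ring

/-- lower bound in terms of `K` -/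
lemma main_K {h : ℕ → ZMod 3} (hmul : ∀ a b, a ≠ 0 → b ≠ 0 → h (a * b) = h a + h b)
    {p : ℕ} (hp : p.Prime) (hp1 : p % 4 = 1) (hhp : h p ≠ 0) (c : ZMod 3) {K : ℕ} (hK : 1 ≤ K) :
    (K : ℝ) ^ 4 ≤ (160 * (p : ℝ) ^ 2) ^ 2 *
      (((Finset.Icc 1 (12 * p ^ 14 * K ^ 2)).filter (fun n => h (n ^ 2 + 1) = c)).card *
       (256 * ((12 * p ^ 14 * K ^ 2 : ℕ) : ℝ) *
        (1 + Real.log ((12 * p ^ 14 * K ^ 2 : ℕ) : ℝ)) ^ 512)) := by
  classical
  have hp5 : 5 ≤ p := by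
    have := hp.two_le
    rcases Nat.lt_or_ge p 5 with h5 | h5
    · interval_cases p <;> omega
    · exact h5
  have h1 := count_main hmul hp hp1 hhp c K
  have h2 := SB_card (K := K) hp5
  set X := 12 * p ^ 14 * K ^ 2 with hX
  set T := (Finset.Icc 1 X).filter (fun n => h (n ^ 2 + 1) = c) with hT
  have hX1 : 1 ≤ X := by
    have h0 := hp.pos
    have h00 : 0 < 12 * p ^ 14 * K ^ 2 := by positivity
    exact h00
  have h3 : ((SB p K).card : ℝ) ≤ 10 * ((p : ℝ) ^ 2 + 1) * ∑ n ∈ T, (tau (n ^ 2 + 1) : ℝ) := by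
    exact_mod_cast h1
  set S := ∑ n ∈ T, (tau (n ^ 2 + 1) : ℝ) with hS
  have hS0 : 0 ≤ S := Finset.sum_nonneg (fun _ _ => Nat.cast_nonneg _)
  have hp1r : (1 : ℝ) ≤ (p : ℝ) ^ 2 := by
    have : (1 : ℝ) ≤ p := by exact_mod_cast hp.one_lt.le
    nlinarith
  have h4 : (K : ℝ) ^ 2 ≤ 160 * (p : ℝ) ^ 2 * S := by
    have h7 : 1 * S ≤ (p : ℝ) ^ 2 * S := mul_le_mul_of_nonneg_right hp1r hS0
    generalize ((SB p K).card : ℝ) = w at h2 h3
    linarith
  have h5 : S ^ 2 ≤ (T.card : ℝ) * ∑ n ∈ T, (tau (n ^ 2 + 1) : ℝ) ^ 2 := by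
    rw [hS]; exact sq_sum_le_card_mul_sum_sq
  have h6 : ∑ n ∈ T, (tau (n ^ 2 + 1) : ℝ) ^ 2 ≤ 256 * (X : ℝ) * (1 + Real.log X) ^ 512 := by
    refine le_trans ?_ (sum_tau_sq_le hX1)
    exact Finset.sum_le_sum_of_subset_of_nonneg (Finset.filter_subset _ _)
      (fun _ _ _ => sq_nonneg _)
  clear_value S
  obtain ⟨L, hL⟩ : ∃ L, L = 256 * (X : ℝ) * (1 + Real.log X) ^ 512 := ⟨_, rfl⟩
  rw [← hL] at h6 ⊢
  calc (K : ℝ) ^ 4 = ((K : ℝ) ^ 2) ^ 2 := by ring
    _ ≤ (160 * (p : ℝ) ^ 2 * S) ^ 2 := pow_le_pow_left₀ (by positivity) h4 2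
    _ = (160 * (p : ℝ) ^ 2) ^ 2 * S ^ 2 := by ring
    _ ≤ (160 * (p : ℝ) ^ 2) ^ 2 * ((T.card : ℝ) * L) :=
      mul_le_mul_of_nonneg_left
        (h5.trans (mul_le_mul_of_nonneg_left h6 (Nat.cast_nonneg _))) (by positivity)

end Pool.Agent.Lib.H13Mod3
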